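import Mathlib

set_option autoImplicit false

namespace Pool.Agent.Results.MP_106bf9_an.Counter

open Polynomial

theorem result : ∃ (P : ℂ[X]) (R : Finset ℕ), 2 ≤ P.natDegree ∧
    (∃ a b, a ≠ b ∧ P.IsRoot a ∧ P.IsRoot b) ∧ R.Nonempty ∧ (∀ r ∈ R, 1 ≤ r ∧ r < P.natDegree) ∧
    {z : ℂ | P.IsRoot z ∨ ∃ r ∈ R, (derivative^[r] P).IsRoot z}.ncard = R.card + 1 := by
  have hd : ((X ^ 2 - 1) ^ 2 : ℂ[X]).natDegree = 4 := by compute_degree!
  have d1 : derivative ((X ^ 2 - 1) ^ 2 : ℂ[X]) = 4 * X ^ 3 - 4 * X := by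
    simp [derivative_pow, map_ofNat]; ring
  have d2 : derivative (4 * X ^ 3 - 4 * X : ℂ[X]) = 12 * X ^ 2 - 4 := by
    simp [derivative_pow, map_ofNat]; ring
  have d3 : derivative (12 * X ^ 2 - 4 : ℂ[X]) = 24 * X := by
    simp [derivative_pow, map_ofNat]; ring
  refine ⟨(X ^ 2 - 1) ^ 2, {1, 3}, by omega, ⟨1, -1, by norm_num, by simp, by simp⟩, by simp,
    by simp [hd], ?_⟩
  have : {z : ℂ | ((X ^ 2 - 1) ^ 2 : ℂ[X]).IsRoot z ∨ ∃ r ∈ ({1, 3} : Finset ℕ),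
      (derivative^[r] ((X ^ 2 - 1) ^ 2 : ℂ[X])).IsRoot z} = {0, 1, -1} := by
    ext z
    simp only [Set.mem_ofPred_eq, Finset.mem_insert, Finset.mem_singleton, exists_eq_or_imp,
      exists_eq_left, Function.iterate_succ, Function.iterate_zero, Function.comp_apply, id, d1,
      d2, d3, IsRoot.def, eval_pow, eval_sub, eval_mul, eval_X, eval_one, eval_ofNat,
      Set.mem_insert_iff, Set.mem_singleton_iff]
    have e : 4 * z ^ 3 - 4 * z = 4 * z * (z ^ 2 - 1) := by ring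
    rw [e]
    simp only [pow_eq_zero_iff two_ne_zero, mul_eq_zero, sub_eq_zero, sq_eq_one_iff]
    norm_num
    tauto
  rw [this, Set.ncard_eq_three.2 ⟨0, 1, -1, by norm_num, by norm_num, by norm_num, rfl⟩]
  rfl

end Pool.Agent.Results.MP_106bf9_an.Counter
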